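import Mathlib
import Pool.Agent.H15.SK1
set_option autoImplicit false

namespace Pool.Agent.Results.MP_705fed_lc.Counter

open Cardinal Pool.Agent.H15.SK

universe w

theorem result (m n : Cardinal.{0}) (hn : ℵ₀ ≤ n) (T : Type) (hT : n < #T) (hm : 2 ^ #T ≤ m) :
    n ≤ m ∧ Nontrivial (Set Bool) ∧ IsMAlg m (Set Bool) ∧ Rep.{w} m (Set Bool) ∧
    (∃ (B : Type) (_ : BooleanAlgebra B) (i : T → BoundedLatticeHom (Set Bool) B),
      MinProd m n (fun _ : T => Set Bool) B i) ∧
    ∀ (B : Type) [BooleanAlgebra B] (i : T → BoundedLatticeHom (Set Bool) B),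
      MinProd m n (fun _ : T => Set Bool) B i → ¬ Rep.{w} m B :=
  ⟨hT.le.trans ((cantor _).le.trans hm), inferInstance, alg_bool m, rep_bool m,
    ⟨_, inferInstance, emb hn, exists_prod hT hm⟩, fun B _ i h => not_rep hn hT hm B i h⟩

end Pool.Agent.Results.MP_705fed_lc.Counter
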